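import Mathlib

set_option autoImplicit false

namespace Pool.Agent.Results.MP_02a275_nt.NimSumNotRegular

/-- The 2-kernel of an integer sequence: all subsequences `n ↦ a (2^e n + r)` with `0 ≤ r < 2^e`. -/
def kernel2 (a : ℕ → ℤ) : Set (ℕ → ℤ) :=
  {b | ∃ e r : ℕ, r < 2 ^ e ∧ b = fun n => a (2 ^ e * n + r)}

/-- A sequence is 2-regular if the `ℤ`-module generated by its 2-kernel is finitely generated. -/
def IsTwoRegular (a : ℕ → ℤ) : Prop := (Submodule.span ℤ (kernel2 a)).FG

/-- A two-dimensional array is 2-regular if there are finitely many arrays `C 0, …, C (s-1)` such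
that every subarray `(c (2^e m + r) (2^e n + t))` with `0 ≤ r, t < 2^e` is a `ℤ`-linear
combination of them. -/
def IsTwoRegularArray (c : ℕ → ℕ → ℤ) : Prop :=
  ∃ (s : ℕ) (C : Fin s → ℕ → ℕ → ℤ), ∀ e r t : ℕ, r < 2 ^ e → t < 2 ^ e →
    (fun m n => c (2 ^ e * m + r) (2 ^ e * n + t)) ∈ Submodule.span ℤ (Set.range C)

/-- a submodule of a finitely generated `ℤ`-module is finitely generated -/
lemma fg_of_le {M : Type*} [AddCommGroup M] {S T : Submodule ℤ M} (h : S ≤ T) (hT : T.FG) : S.FG := by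
  have h1 : IsNoetherian ℤ T := isNoetherian_of_fg_of_noetherian T hT
  exact isNoetherian_submodule.1 h1 S h

lemma xor_split (J a b c d : ℕ) (hb : b < 2 ^ J) (hd : d < 2 ^ J) :
    (2 ^ J * a + b) ^^^ (2 ^ J * c + d) = 2 ^ J * (a ^^^ c) + (b ^^^ d) := by
  apply Nat.eq_of_testBit_eq
  intro i
  rw [Nat.testBit_xor, Nat.testBit_two_pow_mul_add a hb, Nat.testBit_two_pow_mul_add c hd,
    Nat.testBit_two_pow_mul_add (a ^^^ c) (Nat.xor_lt_two_pow hb hd)]
  split_ifs
  · rw [Nat.testBit_xor]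
  · rw [Nat.testBit_xor]

/-- `k ⊕ 2k` -/
def h (k : ℕ) : ℕ := k ^^^ (2 * k)

lemma h_shift (J m : ℕ) (hm : 2 * m < 2 ^ J) : h (2 ^ J + m) = 3 * 2 ^ J + h m := by
  unfold h
  have h1 := xor_split J 1 m 2 (2 * m) (by omega) hm
  have h2 : 2 * (2 ^ J + m) = 2 ^ J * 2 + 2 * m := by ring
  rw [h2]
  rw [mul_one] at h1
  rw [h1]
  have : (1 : ℕ) ^^^ 2 = 3 := rfl
  rw [this]
  ring

/-- `h` is not periodic mod 3 -/
lemma not_periodic (T : ℕ) (hT : 0 < T) (hper : ∀ m : ℕ, h (m + T) % 3 = h m % 3) : False := by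
  have hT0 : h T % 3 = 0 := by
    have := hper 0
    rw [zero_add] at this
    rw [this]
    rfl
  -- binary length
  obtain ⟨l, hl1, hl2⟩ : ∃ l, 2 ^ l ≤ 2 * T ∧ T < 2 ^ l := by
    refine ⟨Nat.log 2 T + 1, ?_, Nat.lt_pow_succ_log_self (by norm_num) T⟩
    have := Nat.pow_log_le_self 2 hT.ne'
    rw [pow_succ]
    omega
  obtain ⟨D, hD⟩ := Nat.exists_eq_add_of_le hl1
  have hDlt : D < 2 ^ l := by omega
  have e1 : h T = 2 ^ l + (T ^^^ D) := by
    unfold h
    have h1 := xor_split l 0 T 1 D hl2 hDlt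
    rw [mul_zero, zero_add, mul_one, ← hD] at h1
    rw [h1]
    simp
  have e2 : h (2 ^ l + T) = 2 * 2 ^ l + (T ^^^ D) := by
    unfold h
    have h1 := xor_split l 1 T 3 D hl2 hDlt
    have h2 : 2 * (2 ^ l + T) = 2 ^ l * 3 + D := by omega
    rw [mul_one, ← h2] at h1
    rw [h1]
    have : (1 : ℕ) ^^^ 3 = 2 := rfl
    rw [this]
    ring
  have e3 : h (2 ^ l + T) % 3 = 0 := by
    rw [hper (2 ^ l)]
    have := h_shift l 0 (by positivity)
    rw [add_zero] at this
    rw [this]
    have h0 : h 0 = 0 := rfl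
    rw [h0]
    omega
  have e4 : 2 ^ l % 3 = 0 := by omega
  have e5 : 3 ∣ 2 ^ l := Nat.dvd_of_mod_eq_zero e4
  have := Nat.prime_three.dvd_of_dvd_pow e5
  omega

/-- the coefficient sequence on powers of two of a 2-regular sequence satisfies a linear
recurrence -/
lemma recurrence (c : ℕ → ℤ) (hc : IsTwoRegular c) : ∃ S : ℕ, 0 < S ∧ ∃ z : Fin S → ℤ,
    ∀ k : ℕ, c (2 ^ (S + k)) = ∑ i : Fin S, z i * c (2 ^ ((i : ℕ) + k)) := by
  classical
  set E : ℕ → ℕ → ℤ := fun k n => c (2 ^ k * n) with hE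
  have h1 : Submodule.span ℤ (Set.range E) ≤ Submodule.span ℤ (kernel2 c) := by
    apply Submodule.span_mono
    rintro f ⟨k, rfl⟩
    exact ⟨k, 0, by positivity, by rw [hE]; simp⟩
  have h2 := fg_of_le h1 hc
  rw [Submodule.fg_span_iff_fg_span_finset_subset] at h2
  obtain ⟨F, hF1, hF2⟩ := h2
  -- bound the indices
  have h3 : ∀ f ∈ F, ∃ k, E k = f := fun f hf => hF1 hf
  choose! g hg using h3
  set S := F.sup g + 1 with hS
  have h4 : (F : Set (ℕ → ℤ)) ⊆ Set.range (fun i : Fin S => E i) := by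
    intro f hf
    have : g f < S := by
      rw [hS]
      exact Nat.lt_succ_of_le (Finset.le_sup (f := g) hf)
    exact ⟨⟨g f, this⟩, hg f hf⟩
  have h5 : E S ∈ Submodule.span ℤ (Set.range (fun i : Fin S => E i)) := by
    apply Submodule.span_mono h4
    rw [← hF2]
    exact Submodule.subset_span ⟨S, rfl⟩
  rw [Submodule.mem_span_range_iff_exists_fun] at h5
  obtain ⟨z, hz⟩ := h5
  refine ⟨S, by omega, z, fun k => ?_⟩
  have h6 := congrFun hz (2 ^ k)
  rw [hE] at h6
  simp only [Finset.sum_apply, Pi.smul_apply, smul_eq_mul, ← pow_add] at h6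
  exact h6.symm

lemma not_regular : ¬ IsTwoRegular (fun n => ((Nat.log 2 n ^^^ (2 * Nat.log 2 n) : ℕ) : ℤ)) := by
  intro hc
  obtain ⟨S, hS, z, hz⟩ := recurrence _ hc
  have hlog : ∀ k : ℕ, Nat.log 2 (2 ^ k) = k := fun k => Nat.log_pow (by norm_num) k
  simp only [hlog] at hz
  -- state vectors
  set v : ℕ → Fin S → ZMod 3 := fun k i => ((h ((i : ℕ) + k) : ℕ) : ZMod 3) with hv
  have hz3 : ∀ k : ℕ, ((h (S + k) : ℕ) : ZMod 3) = ∑ i : Fin S, ((z i : ℤ) : ZMod 3) * v k i := by
    intro k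
    have := congrArg (Int.cast : ℤ → ZMod 3) (hz k)
    push_cast at this
    rw [hv]
    exact this
  have hstep : ∀ k l : ℕ, v k = v l → v (k + 1) = v (l + 1) := by
    intro k l hkl
    funext i
    by_cases hi : (i : ℕ) + 1 < S
    · have := congrFun hkl ⟨i + 1, hi⟩
      rw [hv] at this ⊢
      simp only at this ⊢
      have e1 : (i : ℕ) + (k + 1) = i + 1 + k := by ring
      have e2 : (i : ℕ) + (l + 1) = i + 1 + l := by ring
      rw [e1, e2]
      exact this
    · have hi2 : (i : ℕ) + 1 = S := by have := i.2; omega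
      rw [hv]
      simp only
      have e1 : (i : ℕ) + (k + 1) = S + k := by omega
      have e2 : (i : ℕ) + (l + 1) = S + l := by omega
      rw [e1, e2, hz3 k, hz3 l, hkl]
  obtain ⟨k, l, hkl, hvkl⟩ := Finite.exists_ne_map_eq_of_infinite v
  wlog hlt : k < l generalizing k l
  · exact this l k hkl.symm hvkl.symm (by omega)
  have hall : ∀ j : ℕ, v (k + j) = v (l + j) := by
    intro j
    induction j with
    | zero => exact hvkl
    | succ j ih => exact hstep _ _ ih
  set T := l - k with hT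
  have hTpos : 0 < T := by omega
  have hper : ∀ m : ℕ, k ≤ m → h (m + T) % 3 = h m % 3 := by
    intro m hm
    have := congrFun (hall (m - k)) ⟨0, hS⟩
    rw [hv] at this
    simp only at this
    have e1 : 0 + (k + (m - k)) = m := by omega
    have e2 : 0 + (l + (m - k)) = m + T := by omega
    rw [e1, e2] at this
    exact ((ZMod.natCast_eq_natCast_iff' _ _ 3).1 this).symm
  apply not_periodic T hTpos
  intro m
  obtain ⟨J, hJ⟩ : ∃ J : ℕ, k + 2 * (m + T) < 2 ^ J := ⟨_, Nat.lt_two_pow_self⟩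
  have h1 := hper (2 ^ J + m) (by omega)
  have h2 := h_shift J m (by omega)
  have h3 := h_shift J (m + T) (by omega)
  have e : 2 ^ J + m + T = 2 ^ J + (m + T) := by ring
  rw [e, h2, h3] at h1
  omega

lemma log_regular (c : ℕ) : IsTwoRegular (fun n => ((c * Nat.log 2 n : ℕ) : ℤ)) := by
  unfold IsTwoRegular
  set G : Set (ℕ → ℤ) := {(fun n => (Nat.log 2 n : ℤ)), (fun n => if n = 0 then 0 else 1),
    (fun n => if n = 0 then 1 else 0)} with hG
  have hGf : (Submodule.span ℤ G).FG := Submodule.fg_span (by rw [hG]; exact Set.toFinite _)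
  apply fg_of_le _ hGf
  rw [Submodule.span_le]
  rintro f ⟨e, r, hr, rfl⟩
  have key : (fun n => ((c * Nat.log 2 (2 ^ e * n + r) : ℕ) : ℤ)) =
      (c : ℤ) • (fun n => (Nat.log 2 n : ℤ)) + ((c : ℤ) * e) • (fun n : ℕ => if n = 0 then (0 : ℤ) else 1) +
      ((c : ℤ) * Nat.log 2 r) • (fun n : ℕ => if n = 0 then (1 : ℤ) else 0) := by
    funext n
    simp only [Pi.add_apply, Pi.smul_apply, smul_eq_mul]
    by_cases hn : n = 0
    · subst hn
      simp
    · rw [if_neg hn, if_neg hn]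
      have : Nat.log 2 (2 ^ e * n + r) = Nat.log 2 n + e := by
        apply Nat.log_eq_of_pow_le_of_lt_pow
        · rw [pow_add]
          have := Nat.pow_log_le_self 2 hn
          nlinarith
        · have h1 : n + 1 ≤ 2 ^ (Nat.log 2 n + 1) := Nat.lt_pow_succ_log_self (by norm_num) n
          have h2 : 2 ^ (Nat.log 2 n + e + 1) = 2 ^ e * 2 ^ (Nat.log 2 n + 1) := by
            rw [← pow_add]; congr 1; ring
          rw [h2]
          calc 2 ^ e * n + r < 2 ^ e * n + 2 ^ e := by omega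
            _ = 2 ^ e * (n + 1) := by ring
            _ ≤ 2 ^ e * 2 ^ (Nat.log 2 n + 1) := Nat.mul_le_mul_left _ h1
      rw [this]
      push_cast
      ring
  rw [SetLike.mem_coe, key]
  apply Submodule.add_mem
  · apply Submodule.add_mem
    · exact Submodule.smul_mem _ _ (Submodule.subset_span (by rw [hG]; simp))
    · exact Submodule.smul_mem _ _ (Submodule.subset_span (by rw [hG]; simp))
  · exact Submodule.smul_mem _ _ (Submodule.subset_span (by rw [hG]; simp))

/-- the diagonal, as a linear map -/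
def diag : (ℕ → ℕ → ℤ) →ₗ[ℤ] (ℕ → ℤ) where
  toFun f n := f n n
  map_add' _ _ := rfl
  map_smul' _ _ := rfl

lemma diag_regular (c : ℕ → ℕ → ℤ) (hc : IsTwoRegularArray c) : IsTwoRegular (fun n => c n n) := by
  obtain ⟨s, C, hC⟩ := hc
  have hfg : (Submodule.span ℤ (Set.range C)).FG := Submodule.fg_span (Set.finite_range C)
  have hfg2 := hfg.map diag
  apply fg_of_le _ hfg2
  rw [Submodule.span_le]
  rintro f ⟨e, r, hr, rfl⟩
  exact ⟨_, hC e r r hr hr, rfl⟩

/-- There are 2-regular sequences `a`, `b` of non-negative integers such that the sequence of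
nim sums `a n ⊕ b n` is not 2-regular, and the array of nim sums `a i ⊕ b j` is not 2-regular
either: both questions have a negative answer. -/
theorem result : ∃ a b : ℕ → ℕ,
    IsTwoRegular (fun n => (a n : ℤ)) ∧ IsTwoRegular (fun n => (b n : ℤ)) ∧
    ¬ IsTwoRegular (fun n => ((a n ^^^ b n : ℕ) : ℤ)) ∧
    ¬ IsTwoRegularArray (fun i j => ((a i ^^^ b j : ℕ) : ℤ)) := by
  refine ⟨fun n => Nat.log 2 n, fun n => 2 * Nat.log 2 n, ?_, ?_, ?_, ?_⟩
  · have h1 := log_regular 1
    simpa using h1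
  · exact log_regular 2
  · exact not_regular
  · intro hc
    have h1 := diag_regular (fun i j => ((Nat.log 2 i ^^^ (2 * Nat.log 2 j) : ℕ) : ℤ)) hc
    exact not_regular h1

end Pool.Agent.Results.MP_02a275_nt.NimSumNotRegular
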